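import Pool.Statements.S11986

set_option autoImplicit false
open Filter Topology
open Pool Pool.MP_e10300_co

namespace Pool.Agent.Helper36.E10300



/-- Residue map into the `N`-fold power of `Fin m`. -/
def phi (m N : ℕ) (hm : 0 < m) (i : ℕ) : Fin N → Fin m :=
  finFunctionFinEquiv.symm ⟨i % m ^ N, Nat.mod_lt _ (pow_pos hm N)⟩

/-- Blow-up of the `N`-th tensor power of the complete graph on `m` vertices. -/
def blow (m N : ℕ) (hm : 0 < m) (n : ℕ) : SimpleGraph (Fin n) where
  Adj i j := i ≠ j ∧ ∀ k : Fin N, phi m N hm i.val k ≠ phi m N hm j.val k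
  symm := ⟨fun _ _ h => ⟨h.1.symm, fun k => (h.2 k).symm⟩⟩
  loopless := ⟨fun _ h => h.1 rfl⟩

/-- number of proper colourings of the relation `R` with `m` colours -/
noncomputable def col {V : Type} (R : V → V → Prop) (m : ℕ) : ℕ :=
  Nat.card {c : V → Fin m // ∀ u v, R u v → c u ≠ c v}

noncomputable def inj {V : Type} (R : V → V → Prop) {n : ℕ} (G : SimpleGraph (Fin n)) : ℕ :=
  Set.ncard {f : V → Fin n | Function.Injective f ∧ ∀ u v, R u v → G.Adj (f u) (f v)}

/-- homs to the power -/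
abbrev HomPow {V : Type} (R : V → V → Prop) (m N : ℕ) : Type :=
  {g : V → (Fin N → Fin m) // ∀ u v, R u v → ∀ k, g u k ≠ g v k}

lemma card_homPow {V : Type} [Finite V] (R : V → V → Prop) (m N : ℕ) :
    Nat.card (HomPow R m N) = col R m ^ N := by
  have e : HomPow R m N ≃ (Fin N → {c : V → Fin m // ∀ u v, R u v → c u ≠ c v}) :=
    { toFun := fun g k => ⟨fun v => g.1 v k, fun u v h => g.2 u v h k⟩
      invFun := fun c => ⟨fun v k => (c k).1 v, fun u v h k => (c k).2 u v h⟩
      left_inv := fun g => rfl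
      right_inv := fun c => rfl }
  rw [Nat.card_congr e, Nat.card_fun]
  simp [col]

lemma inj_upper {V : Type} [Fintype V] (R : V → V → Prop) (m N : ℕ) (hm : 0 < m) (n : ℕ) :
    inj R (blow m N hm n) ≤ col R m ^ N * (n / m ^ N + 1) ^ Fintype.card V := by
  classical
  have hM : 0 < m ^ N := pow_pos hm N
  unfold inj
  rw [← Nat.card_coe_set_eq, ← card_homPow]
  have hcard : Nat.card (HomPow R m N × (V → Fin (n / m ^ N + 1)))
      = Nat.card (HomPow R m N) * (n / m ^ N + 1) ^ Fintype.card V := by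
    rw [Nat.card_prod, Nat.card_fun]; simp
  rw [← hcard]
  let F : {f : V → Fin n | Function.Injective f ∧ ∀ u v, R u v → (blow m N hm n).Adj (f u) (f v)} →
      HomPow R m N × (V → Fin (n / m ^ N + 1)) := fun f =>
    (⟨fun v => phi m N hm (f.1 v).val, fun u v h => (f.2.2 u v h).2⟩,
      fun v => ⟨(f.1 v).val / m ^ N, Nat.lt_succ_of_le (Nat.div_le_div_right (f.1 v).isLt.le)⟩)
  refine Nat.card_le_card_of_injective F ?_
  intro f f' h
  apply Subtype.ext
  funext v
  apply Fin.ext
  have h1 := congrArg (fun x => x.1.1 v) h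
  have h2 := congrArg (fun x => (x.2 v).val) h
  simp only [F, phi] at h1 h2
  have h3 := finFunctionFinEquiv.symm.injective h1
  have h4 := congrArg Fin.val h3
  simp only at h4
  have := Nat.div_add_mod (f.1 v).val (m ^ N)
  have := Nat.div_add_mod (f'.1 v).val (m ^ N)
  rw [h2, h4] at *
  omega

lemma inj_lower {V : Type} [Fintype V] (R : V → V → Prop) (hR : ∀ u v, R u v → u ≠ v)
    (m N : ℕ) (hm : 0 < m) (n : ℕ) :
    col R m ^ N * (n / m ^ N).descFactorial (Fintype.card V) ≤ inj R (blow m N hm n) := by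
  classical
  have hM : 0 < m ^ N := pow_pos hm N
  unfold inj
  rw [← Nat.card_coe_set_eq, ← card_homPow]
  have hcard : Nat.card (HomPow R m N × (V ↪ Fin (n / m ^ N)))
      = Nat.card (HomPow R m N) * (n / m ^ N).descFactorial (Fintype.card V) := by
    rw [Nat.card_prod]
    congr 1
    rw [Nat.card_eq_fintype_card, Fintype.card_embedding_eq]
    simp
  rw [← hcard]
  have key : ∀ (g : Fin N → Fin m) (h : Fin (n / m ^ N)),
      (finFunctionFinEquiv g).val + m ^ N * h.val < n := by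
    intro g h
    have h1 : (finFunctionFinEquiv g).val < m ^ N := (finFunctionFinEquiv g).isLt
    have h2 : h.val + 1 ≤ n / m ^ N := h.isLt
    have h3 : m ^ N * (h.val + 1) ≤ m ^ N * (n / m ^ N) := Nat.mul_le_mul_left _ h2
    have h4 : m ^ N * (n / m ^ N) ≤ n := Nat.mul_div_le n (m ^ N)
    have h5 : m ^ N * (h.val + 1) = m ^ N * h.val + m ^ N := by ring
    omega
  have kmod : ∀ (g : Fin N → Fin m) (h : ℕ),
      ((finFunctionFinEquiv g).val + m ^ N * h) % m ^ N = (finFunctionFinEquiv g).val := by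
    intro g h
    rw [Nat.add_mul_mod_self_left]
    exact Nat.mod_eq_of_lt (finFunctionFinEquiv g).isLt
  have kdiv : ∀ (g : Fin N → Fin m) (h : ℕ),
      ((finFunctionFinEquiv g).val + m ^ N * h) / m ^ N = h := by
    intro g h
    rw [Nat.add_mul_div_left _ _ hM, Nat.div_eq_of_lt (finFunctionFinEquiv g).isLt, zero_add]
  have kphi : ∀ (g : Fin N → Fin m) (h : ℕ),
      phi m N hm ((finFunctionFinEquiv g).val + m ^ N * h) = g := by
    intro g h
    unfold phi
    rw [Equiv.symm_apply_eq]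
    apply Fin.ext
    exact kmod g h
  let F : HomPow R m N × (V ↪ Fin (n / m ^ N)) →
      {f : V → Fin n | Function.Injective f ∧ ∀ u v, R u v → (blow m N hm n).Adj (f u) (f v)} :=
    fun x => ⟨fun v => ⟨(finFunctionFinEquiv (x.1.1 v)).val + m ^ N * (x.2 v).val, key _ _⟩, by
      have hinj : Function.Injective (fun v : V =>
          (⟨(finFunctionFinEquiv (x.1.1 v)).val + m ^ N * (x.2 v).val, key _ _⟩ : Fin n)) := by
        intro u v huv
        have h1 := congrArg (fun y : Fin n => y.val / m ^ N) huv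
        simp only [kdiv] at h1
        exact x.2.injective (Fin.ext h1)
      refine ⟨hinj, ?_⟩
      intro u v huv
      refine ⟨fun h => hR u v huv (hinj h), ?_⟩
      intro k
      simp only [kphi]
      exact x.1.2 u v huv k⟩
  refine Nat.card_le_card_of_injective F ?_
  intro x y hxy
  have h0 := congrArg (fun z => z.1) hxy
  apply Prod.ext
  · apply Subtype.ext
    funext v
    have h1 := congrArg (fun z : V → Fin n => phi m N hm (z v).val) h0
    simp only [F, kphi] at h1
    exact h1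
  · apply DFunLike.ext
    intro v
    have h1 := congrArg (fun z : V → Fin n => (z v).val / m ^ N) h0
    simp only [F, kdiv] at h1
    exact Fin.ext h1



lemma tendsto_div_nat (M : ℕ) (hM : 0 < M) :
    Tendsto (fun n : ℕ => ((n / M : ℕ) : ℝ) / (n : ℝ)) atTop (𝓝 (1 / (M : ℝ))) := by
  have h := tendsto_nat_floor_mul_div_atTop (R := ℝ) (a := 1 / (M : ℝ)) (by positivity)
  have h2 := h.comp (tendsto_natCast_atTop_atTop (R := ℝ))
  refine h2.congr ?_
  intro n
  simp only [Function.comp]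
  congr 2
  rw [one_div, inv_mul_eq_div, Nat.floor_div_natCast, Nat.floor_natCast]

lemma tendsto_sub_div (M k : ℕ) (hM : 0 < M) :
    Tendsto (fun n : ℕ => (((n / M - k : ℕ) : ℝ)) / ((n - k : ℕ) : ℝ)) atTop (𝓝 (1 / (M : ℝ))) := by
  have h1 := tendsto_div_nat M hM
  have hk : Tendsto (fun n : ℕ => (k : ℝ) / (n : ℝ)) atTop (𝓝 0) :=
    tendsto_const_div_atTop_nhds_zero_nat (k : ℝ)
  have h2 : Tendsto (fun n : ℕ => (((n / M : ℕ) : ℝ) / (n : ℝ) - (k : ℝ) / n) / (1 - (k : ℝ) / n))
      atTop (𝓝 ((1 / (M : ℝ) - 0) / (1 - 0))) :=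
    (h1.sub hk).div (tendsto_const_nhds.sub hk) (by norm_num)
  simp only [sub_zero, div_one] at h2
  refine h2.congr' ?_
  filter_upwards [eventually_ge_atTop (M * (k + 1))] with n hn
  have hn0 : 0 < n := lt_of_lt_of_le (by positivity) hn
  have h3 : k + 1 ≤ n / M := by
    rw [Nat.le_div_iff_mul_le hM, Nat.mul_comm]; exact hn
  have h4 : k ≤ n := by
    have : n / M ≤ n := Nat.div_le_self _ _
    omega
  rw [Nat.cast_sub (by omega : k ≤ n / M), Nat.cast_sub h4]
  have h5 : (n : ℝ) ≠ 0 := by positivity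
  rw [← sub_div]
  have h6 : (1 - (k : ℝ) / n) = ((n : ℝ) - k) / n := by field_simp
  rw [h6, div_div_div_cancel_right₀ h5]

lemma tendsto_desc_ratio (M k : ℕ) (hM : 0 < M) :
    Tendsto (fun n : ℕ => ((n / M : ℕ).descFactorial k : ℝ) / (n.descFactorial k : ℝ)) atTop
      (𝓝 ((1 / (M : ℝ)) ^ k)) := by
  induction k with
  | zero => simp
  | succ k ih =>
    have := (tendsto_sub_div M k hM).mul ih
    rw [pow_succ']
    refine this.congr ?_
    intro n
    rw [Nat.descFactorial_succ, Nat.descFactorial_succ]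
    push_cast
    rw [mul_div_mul_comm]

lemma tendsto_pow_ratio (M k : ℕ) (hM : 0 < M) :
    Tendsto (fun n : ℕ => (((n / M : ℕ) : ℝ) + 1) ^ k / (n.descFactorial k : ℝ)) atTop
      (𝓝 ((1 / (M : ℝ)) ^ k)) := by
  induction k with
  | zero => simp
  | succ k ih =>
    have hk : Tendsto (fun n : ℕ => (k : ℝ) / (n : ℝ)) atTop (𝓝 0) :=
      tendsto_const_div_atTop_nhds_zero_nat (k : ℝ)
    have h0 : Tendsto (fun n : ℕ => (1 : ℝ) / (n : ℝ)) atTop (𝓝 0) :=
      tendsto_const_div_atTop_nhds_zero_nat (1 : ℝ)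
    have h2 : Tendsto (fun n : ℕ => (((n / M : ℕ) : ℝ) / (n : ℝ) + 1 / n) / (1 - (k : ℝ) / n))
        atTop (𝓝 ((1 / (M : ℝ) + 0) / (1 - 0))) :=
      ((tendsto_div_nat M hM).add h0).div (tendsto_const_nhds.sub hk) (by norm_num)
    simp only [add_zero, sub_zero, div_one] at h2
    have h3 : Tendsto (fun n : ℕ => (((n / M : ℕ) : ℝ) + 1) / ((n - k : ℕ) : ℝ)) atTop
        (𝓝 (1 / (M : ℝ))) := by
      refine h2.congr' ?_
      filter_upwards [eventually_ge_atTop (k + 1)] with n hn
      have h5 : (n : ℝ) ≠ 0 := by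
        have : 0 < n := by omega
        positivity
      rw [Nat.cast_sub (by omega : k ≤ n), ← add_div]
      have h6 : (1 - (k : ℝ) / n) = ((n : ℝ) - k) / n := by field_simp
      rw [h6, div_div_div_cancel_right₀ h5]
    have := h3.mul ih
    rw [pow_succ']
    refine this.congr ?_
    intro n
    rw [Nat.descFactorial_succ]
    push_cast
    rw [pow_succ', mul_div_mul_comm]

/-- diagonalisation -/
lemma diag {P : ℕ → ℕ → Prop} (h : ∀ r, ∀ᶠ n in atTop, P r n) :
    ∃ φ : ℕ → ℕ, Tendsto φ atTop atTop ∧ ∀ᶠ n in atTop, P (φ n) n := by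
  choose N hN using fun r => eventually_atTop.1 (h r)
  refine ⟨fun n => Nat.findGreatest (fun r => N r ≤ n) n, ?_, ?_⟩
  · rw [tendsto_atTop]
    intro b
    filter_upwards [eventually_ge_atTop (max b (N b))] with n hn
    exact Nat.le_findGreatest (le_trans (le_max_left _ _) hn) (le_trans (le_max_right _ _) hn)
  · filter_upwards [eventually_ge_atTop (max 1 (N 1)), eventually_ge_atTop (N 0)] with n hn hn0
    have h1 : 1 ≤ n := le_trans (le_max_left _ _) hn
    have := Nat.findGreatest_spec (P := fun r => N r ≤ n) (m := 1) (n := n) h1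
      (le_trans (le_max_right _ _) hn)
    exact hN _ n this




lemma col_ne (k m : ℕ) : col (fun u v : Fin k => u ≠ v) m = m.descFactorial k := by
  have e : {c : Fin k → Fin m // ∀ u v, u ≠ v → c u ≠ c v} ≃ (Fin k ↪ Fin m) :=
    { toFun := fun c => ⟨c.1, fun u v h => by
        by_contra hne
        exact c.2 u v hne h⟩
      invFun := fun c => ⟨c, fun u v h h2 => h (c.injective h2)⟩
      left_inv := fun c => rfl
      right_inv := fun c => rfl }
  unfold col
  rw [Nat.card_congr e, Nat.card_eq_fintype_card, Fintype.card_embedding_eq]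
  simp

lemma col_two (m : ℕ) : col (⊤ : SimpleGraph (Fin 2)).Adj m = m.descFactorial 2 := by
  rw [← col_ne]
  rfl

lemma col_three (m : ℕ) : col (SimpleGraph.cycleGraph 3).Adj m = m.descFactorial 3 := by
  rw [← col_ne, SimpleGraph.cycleGraph_three_eq_top]
  rfl

lemma col_bip (s t m : ℕ) : col (completeBipartiteGraph (Fin s) (Fin t)).Adj m =
    ∑ a : Fin s → Fin m, (Fintype.card {x : Fin m // ∀ i, a i ≠ x}) ^ t := by
  classical
  have e : {c : Fin s ⊕ Fin t → Fin m //
      ∀ u v, (completeBipartiteGraph (Fin s) (Fin t)).Adj u v → c u ≠ c v} ≃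
      (Σ a : Fin s → Fin m, (Fin t → {x : Fin m // ∀ i, a i ≠ x})) :=
    { toFun := fun c => ⟨fun i => c.1 (Sum.inl i), fun j => ⟨c.1 (Sum.inr j), fun i =>
        c.2 (Sum.inl i) (Sum.inr j) (by simp)⟩⟩
      invFun := fun x => ⟨Sum.elim x.1 (fun j => (x.2 j).1), by
        rintro (i | j) (i' | j') h
        · simp at h
        · exact (x.2 j').2 i
        · exact fun h' => (x.2 j).2 i' h'.symm
        · simp at h⟩
      left_inv := fun c => by
        apply Subtype.ext
        funext v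
        rcases v with i | j <;> rfl
      right_inv := fun x => rfl }
  unfold col
  rw [Nat.card_congr e, Nat.card_sigma]
  refine Finset.sum_congr rfl fun a _ => ?_
  rw [Nat.card_fun, Nat.card_eq_fintype_card]
  simp

lemma col_four (m : ℕ) : col (SimpleGraph.cycleGraph 4).Adj m =
    m * (m - 1) ^ 2 + m * (m - 1) * (m - 2) ^ 2 := by
  classical
  have h1 : col (SimpleGraph.cycleGraph 4).Adj m
      = col (completeBipartiteGraph (Fin 2) (Fin 2)).Adj m := by
    have e : {c : Fin 4 → Fin m // ∀ u v, (SimpleGraph.cycleGraph 4).Adj u v → c u ≠ c v} ≃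
        {c : Fin 2 ⊕ Fin 2 → Fin m //
          ∀ u v, (completeBipartiteGraph (Fin 2) (Fin 2)).Adj u v → c u ≠ c v} :=
      { toFun := fun c => ⟨Sum.elim ![c.1 0, c.1 2] ![c.1 1, c.1 3], by
          have h01 := c.2 0 1 (by decide)
          have h12 := c.2 1 2 (by decide)
          have h23 := c.2 2 3 (by decide)
          have h30 := c.2 3 0 (by decide)
          rintro (i | j) (i' | j') h
          · simp at h
          · fin_cases i <;> fin_cases j' <;> simp <;> tauto
          · fin_cases j <;> fin_cases i' <;> simp <;> tauto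
          · simp at h⟩
        invFun := fun c => ⟨![c.1 (Sum.inl 0), c.1 (Sum.inr 0), c.1 (Sum.inl 1), c.1 (Sum.inr 1)], by
          have h01 := c.2 (Sum.inl 0) (Sum.inr 0) (by simp)
          have h12 := c.2 (Sum.inl 1) (Sum.inr 0) (by simp)
          have h23 := c.2 (Sum.inl 1) (Sum.inr 1) (by simp)
          have h30 := c.2 (Sum.inl 0) (Sum.inr 1) (by simp)
          intro u v h
          fin_cases u <;> fin_cases v <;> simp <;> first | exact absurd h (by decide) | tauto⟩
        left_inv := fun c => by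
          apply Subtype.ext
          funext v
          fin_cases v <;> rfl
        right_inv := fun c => by
          apply Subtype.ext
          funext v
          rcases v with i | j
          · fin_cases i <;> rfl
          · fin_cases j <;> rfl }
    unfold col
    exact Nat.card_congr e
  rw [h1, col_bip]
  have h2 : ∀ a : Fin 2 → Fin m, Fintype.card {x : Fin m // ∀ i, a i ≠ x} =
      if a 0 = a 1 then m - 1 else m - 2 := by
    intro a
    rw [Fintype.card_subtype]
    have : (Finset.univ.filter fun x : Fin m => ∀ i, a i ≠ x) = (({a 0, a 1} : Finset (Fin m)))ᶜ := by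
      ext x
      simp [Fin.forall_fin_two, eq_comm]
    rw [this, Finset.card_compl, Fintype.card_fin]
    split_ifs with h
    · simp [h]
    · rw [Finset.card_pair h]
  simp only [h2]
  rw [← (finTwoArrowEquiv (Fin m)).symm.sum_comp]
  simp only [finTwoArrowEquiv_symm_apply, Matrix.cons_val_zero, Matrix.cons_val_one,
    Fintype.sum_prod_type]
  have h3 : ∀ x : Fin m, (∑ y : Fin m, (if x = y then m - 1 else m - 2) ^ 2)
      = (m - 1) ^ 2 + (m - 1) * (m - 2) ^ 2 := by
    intro x
    rw [← Finset.add_sum_erase _ _ (Finset.mem_univ x)]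
    simp only [if_true]
    congr 1
    rw [Finset.sum_congr rfl (g := fun _ => (m - 2) ^ 2)]
    · simp
    · intro y hy
      rw [if_neg (Finset.ne_of_mem_erase hy).symm]
  simp only [h3]
  simp
  ring





lemma sub_div_bounds (s t m : ℕ) (hm : 0 < m) (ht : 1 ≤ t) :
    (((m - s : ℕ) : ℝ) / m) ≤ (1 - 1 / (m : ℝ)) ^ s ∧
    1 - (((m - s : ℕ) : ℝ) / m) ^ t ≤ (s : ℝ) * t / m := by
  have hm0 : (0 : ℝ) < m := by exact_mod_cast hm
  have hm1 : (1 : ℝ) ≤ m := by exact_mod_cast hm
  have hm2 : 1 / (m : ℝ) ≤ 1 := by rw [div_le_one hm0]; exact hm1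
  rcases le_total s m with hs | hs
  · have hx : ((m - s : ℕ) : ℝ) / m = 1 + (s : ℝ) * (-(1 / (m : ℝ))) := by
      rw [Nat.cast_sub hs]
      field_simp
      ring
    constructor
    · rw [hx]
      have := one_add_mul_le_pow (a := -(1 / (m : ℝ))) (by linarith) s
      simpa [sub_eq_add_neg] using this
    · have hsm : (s : ℝ) / m ≤ 1 := by
        rw [div_le_one hm0]; exact_mod_cast hs
      have h2 := one_add_mul_le_pow (a := -((s : ℝ) / m)) (by linarith) t
      have hx2 : ((m - s : ℕ) : ℝ) / m = 1 + -((s : ℝ) / m) := by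
        rw [hx]; ring
      rw [hx2]
      have : (s : ℝ) * t / m = t * ((s : ℝ) / m) := by ring
      rw [this]
      linarith
  · have h0 : (m - s : ℕ) = 0 := by omega
    rw [h0]
    constructor
    · simp only [Nat.cast_zero, zero_div]
      apply pow_nonneg
      linarith
    · have h1 : (1 : ℝ) ≤ (s : ℝ) * t / m := by
        rw [le_div_iff₀ hm0]
        have hs' : (m : ℝ) ≤ s := by exact_mod_cast hs
        have ht' : (1 : ℝ) ≤ t := by exact_mod_cast ht
        nlinarith
      have h2 : (0 : ℝ) ≤ (((0 : ℕ) : ℝ) / m) ^ t := by positivity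
      linarith

lemma desc_bound (s m : ℕ) (hm : 0 < m) :
    1 - (m.descFactorial s : ℝ) / (m : ℝ) ^ s ≤ (s : ℝ) ^ 2 / m := by
  have hm0 : (0 : ℝ) < m := by exact_mod_cast hm
  rcases le_total s m with hs | hs
  · have h1 : ((m - s : ℕ) : ℝ) ^ s ≤ (m.descFactorial s : ℝ) := by
      have h := Nat.pow_sub_le_descFactorial m s
      have h' : (m - s) ^ s ≤ (m + 1 - s) ^ s := Nat.pow_le_pow_left (by omega) s
      exact_mod_cast le_trans h' h
    have hx : ((m - s : ℕ) : ℝ) = m * (1 + -((s : ℝ) / m)) := by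
      rw [Nat.cast_sub hs]
      field_simp
      ring
    have hsm : (s : ℝ) / m ≤ 1 := by
      rw [div_le_one hm0]; exact_mod_cast hs
    have h2 := one_add_mul_le_pow (a := -((s : ℝ) / m)) (by linarith) s
    have h3 : (1 + -((s : ℝ) / m)) ^ s ≤ (m.descFactorial s : ℝ) / (m : ℝ) ^ s := by
      rw [le_div_iff₀ (by positivity), ← mul_pow, mul_comm, ← hx]
      exact h1
    have h4 : (s : ℝ) ^ 2 / m = s * ((s : ℝ) / m) := by ring
    rw [h4]
    linarith
  · have h1 : (1 : ℝ) ≤ (s : ℝ) ^ 2 / m := by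
      rw [le_div_iff₀ hm0]
      have hs' : (m : ℝ) ≤ s := by exact_mod_cast hs
      have hm1 : (1 : ℝ) ≤ m := by exact_mod_cast hm
      nlinarith
    have h2 : (0 : ℝ) ≤ (m.descFactorial s : ℝ) / (m : ℝ) ^ s := by positivity
    linarith

lemma col_bip_le (s t m : ℕ) (hm : 0 < m) (ht : 1 ≤ t) :
    (col (completeBipartiteGraph (Fin s) (Fin t)).Adj m : ℝ) / (m : ℝ) ^ (s + t) ≤
      (1 - 1 / (m : ℝ)) ^ (s * t) + (s : ℝ) ^ 3 * t / (m : ℝ) ^ 2 := by
  classical
  have hm0 : (0 : ℝ) < m := by exact_mod_cast hm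
  obtain ⟨hA, hB⟩ := sub_div_bounds s t m hm ht
  have hD := desc_bound s m hm
  have hinj : (Finset.univ.filter fun a : Fin s → Fin m => Function.Injective a).card
      = m.descFactorial s := by
    rw [← Fintype.card_subtype, Fintype.card_congr (Equiv.subtypeInjectiveEquivEmbedding _ _),
      Fintype.card_embedding_eq]
    simp
  have hcount : (col (completeBipartiteGraph (Fin s) (Fin t)).Adj m : ℝ) ≤
      (m.descFactorial s : ℝ) * ((m - s : ℕ) : ℝ) ^ t +
        ((m : ℝ) ^ s - m.descFactorial s) * (m : ℝ) ^ t := by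
    rw [col_bip]
    push_cast
    rw [← Finset.sum_filter_add_sum_filter_not Finset.univ (fun a : Fin s → Fin m =>
      Function.Injective a)]
    apply add_le_add
    · rw [← hinj, ← nsmul_eq_mul]
      apply Finset.sum_le_card_nsmul
      intro a ha
      have ha' := (Finset.mem_filter.1 ha).2
      apply le_of_eq
      congr 2
      rw [Fintype.card_subtype]
      have : (Finset.univ.filter fun x : Fin m => ∀ i, a i ≠ x) = (Finset.univ.image a)ᶜ := by
        ext x
        simp
      rw [this, Finset.card_compl, Fintype.card_fin, Finset.card_image_of_injective _ ha']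
      simp
    · have hc : ((Finset.univ.filter fun a : Fin s → Fin m => ¬ Function.Injective a).card : ℝ)
          = (m : ℝ) ^ s - m.descFactorial s := by
        have h1 := Finset.card_filter_add_card_filter_not (s := (Finset.univ : Finset (Fin s → Fin m)))
          (fun a => Function.Injective a)
        rw [hinj] at h1
        simp only [Finset.card_univ, Fintype.card_pi, Finset.prod_const, Fintype.card_fin] at h1
        have h2 : ((m ^ s : ℕ) : ℝ) = (m.descFactorial s : ℝ) +
          ((Finset.univ.filter fun a : Fin s → Fin m => ¬ Function.Injective a).card : ℝ) := by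
          rw [← h1]; push_cast; rfl
        push_cast at h2
        linarith
      rw [← hc, ← nsmul_eq_mul]
      apply Finset.sum_le_card_nsmul
      intro a _
      apply pow_le_pow_left₀ (by positivity)
      have h1 : Fintype.card {x : Fin m // ∀ i, a i ≠ x} ≤ Fintype.card (Fin m) :=
        Fintype.card_subtype_le _
      rw [Fintype.card_fin] at h1
      exact_mod_cast h1
  set x : ℝ := ((m - s : ℕ) : ℝ) / m with hx
  set D : ℝ := (m.descFactorial s : ℝ) / (m : ℝ) ^ s with hDdef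
  have hD1 : D ≤ 1 := by
    rw [hDdef, div_le_one (by positivity)]
    exact_mod_cast Nat.descFactorial_le_pow m s
  have hx0 : 0 ≤ x := by positivity
  have hx1 : x ≤ 1 := by
    rw [hx, div_le_one hm0]
    exact_mod_cast Nat.sub_le m s
  have h1 : (col (completeBipartiteGraph (Fin s) (Fin t)).Adj m : ℝ) / (m : ℝ) ^ (s + t) ≤
      D * x ^ t + (1 - D) := by
    rw [div_le_iff₀ (by positivity)]
    refine le_trans hcount (le_of_eq ?_)
    rw [hDdef, hx, div_pow, pow_add]
    field_simp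
  have h2 : x ^ t ≤ (1 - 1 / (m : ℝ)) ^ (s * t) := by
    rw [pow_mul]
    exact pow_le_pow_left₀ hx0 hA t
  have h3 : (1 - D) * (1 - x ^ t) ≤ ((s : ℝ) ^ 2 / m) * ((s : ℝ) * t / m) := by
    apply mul_le_mul hD hB
    · have : x ^ t ≤ 1 := pow_le_one₀ hx0 hx1
      linarith
    · positivity
  have h4 : ((s : ℝ) ^ 2 / m) * ((s : ℝ) * t / m) = (s : ℝ) ^ 3 * t / (m : ℝ) ^ 2 := by
    field_simp
  rw [h4] at h3
  calc _ ≤ D * x ^ t + (1 - D) := h1
    _ = x ^ t + (1 - D) * (1 - x ^ t) := by ring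
    _ ≤ _ := add_le_add h2 h3


/-- the density -/
noncomputable def dens (r : ℕ) : ℝ := ((r : ℝ) / ((r : ℝ) + 1)) ^ (r ^ 2)

lemma dens_pos (r : ℕ) : 0 < dens r := by
  unfold dens
  rcases Nat.eq_zero_or_pos r with h | h
  · subst h; simp
  · positivity

lemma dens_le (r : ℕ) : dens r ≤ 1 := by
  unfold dens
  apply pow_le_one₀
  · positivity
  · rw [div_le_one (by positivity)]
    linarith

/-- limiting normalised count -/
noncomputable def tau {V : Type} [Fintype V] (R : V → V → Prop) (e r : ℕ) : ℝ :=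
  ((col R (r + 1) : ℝ) / (((r : ℝ) + 1) ^ Fintype.card V * ((r : ℝ) / ((r : ℝ) + 1)) ^ e)) ^ (r ^ 2)

/-- the normalised count -/
noncomputable def sp {V : Type} [Fintype V] (R : V → V → Prop) (e : ℕ) (p : ℝ) {n : ℕ}
    (G : SimpleGraph (Fin n)) : ℝ :=
  (inj R G : ℝ) / ((n.descFactorial (Fintype.card V) : ℝ) * p ^ e)

lemma sp_tendsto {V : Type} [Fintype V] (R : V → V → Prop) (hR : ∀ u v, R u v → u ≠ v)
    (e r : ℕ) :
    Tendsto (fun n : ℕ => sp R e (dens r) (blow (r + 1) (r ^ 2) (Nat.succ_pos r) n)) atTop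
      (𝓝 (tau R e r)) := by
  have hM : 0 < (r + 1) ^ (r ^ 2) := pow_pos (Nat.succ_pos r) _
  set k := Fintype.card V with hk
  have h1 := tendsto_desc_ratio ((r + 1) ^ (r ^ 2)) k hM
  have h2 := tendsto_pow_ratio ((r + 1) ^ (r ^ 2)) k hM
  set c : ℝ := (col R (r + 1) : ℝ) ^ (r ^ 2) / dens r ^ e with hc
  have htau : tau R e r = c * (1 / (((r + 1) ^ (r ^ 2) : ℕ) : ℝ)) ^ k := by
    rw [hc, tau, dens, ← hk, div_pow, mul_pow, ← pow_mul, ← pow_mul, ← pow_mul]
    push_cast
    rw [one_div, inv_pow, ← pow_mul, mul_comm e (r ^ 2), mul_comm k (r ^ 2)]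
    rw [← div_eq_mul_inv, div_div, mul_comm]
  rw [htau]
  have hp : 0 < dens r ^ e := pow_pos (dens_pos r) e
  refine tendsto_of_tendsto_of_tendsto_of_le_of_le (h1.const_mul c) (h2.const_mul c) ?_ ?_
  · intro n
    have h := inj_lower R hR (r + 1) (r ^ 2) (Nat.succ_pos r) n
    have h' : (col R (r + 1) : ℝ) ^ (r ^ 2) * ((n / (r + 1) ^ (r ^ 2)).descFactorial k : ℝ)
        ≤ (inj R (blow (r + 1) (r ^ 2) (Nat.succ_pos r) n) : ℝ) := by
      exact_mod_cast h
    simp only [sp]
    rw [hc, div_mul_div_comm, mul_comm (dens r ^ e)]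
    exact div_le_div_of_nonneg_right h' (by positivity)
  · intro n
    have h := inj_upper R (r + 1) (r ^ 2) (Nat.succ_pos r) n
    have h' : (inj R (blow (r + 1) (r ^ 2) (Nat.succ_pos r) n) : ℝ) ≤
        (col R (r + 1) : ℝ) ^ (r ^ 2) * (((n / (r + 1) ^ (r ^ 2) : ℕ) : ℝ) + 1) ^ k := by
      exact_mod_cast h
    simp only [sp]
    rw [hc, div_mul_div_comm, mul_comm (dens r ^ e)]
    exact div_le_div_of_nonneg_right h' (by positivity)

lemma tau_two (r : ℕ) (hr : 0 < r) : tau (⊤ : SimpleGraph (Fin 2)).Adj 1 r = 1 := by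
  have hr0 : (0 : ℝ) < r := by exact_mod_cast hr
  unfold tau
  rw [col_two]
  have : (((r + 1).descFactorial 2 : ℕ) : ℝ) = ((r : ℝ) + 1) * r := by
    rw [Nat.descFactorial_succ, Nat.descFactorial_one]
    simp only [Nat.add_sub_cancel]
    push_cast
    ring
  rw [this]
  have h1 : ((r : ℝ) + 1) * r / (((r : ℝ) + 1) ^ Fintype.card (Fin 2) *
      ((r : ℝ) / ((r : ℝ) + 1)) ^ 1) = 1 := by
    rw [Fintype.card_fin]
    field_simp
  rw [h1, one_pow]

lemma tau_three (r : ℕ) (hr : 0 < r) : tau (SimpleGraph.cycleGraph 3).Adj 3 r =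
    (1 + (-1) / ((r ^ 2 : ℕ) : ℝ)) ^ (r ^ 2) := by
  have hr0 : (0 : ℝ) < r := by exact_mod_cast hr
  unfold tau
  rw [col_three]
  have : (((r + 1).descFactorial 3 : ℕ) : ℝ) = ((r : ℝ) + 1) * r * (r - 1) := by
    rw [Nat.descFactorial_succ, Nat.descFactorial_succ, Nat.descFactorial_one]
    simp only [Nat.add_sub_cancel]
    have h2 : r + 1 - 2 = r - 1 := by omega
    rw [h2]
    push_cast [Nat.cast_sub (Nat.succ_le_of_lt hr)]
    ring
  rw [this, Fintype.card_fin]
  congr 1
  push_cast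
  field_simp
  ring

lemma tau_four (r : ℕ) (hr : 0 < r) : tau (SimpleGraph.cycleGraph 4).Adj 4 r =
    (1 + 1 / (r : ℝ) ^ 3) ^ (r ^ 2) := by
  have hr0 : (0 : ℝ) < r := by exact_mod_cast hr
  unfold tau
  rw [col_four]
  have : (((r + 1) * (r + 1 - 1) ^ 2 + (r + 1) * (r + 1 - 1) * (r + 1 - 2) ^ 2 : ℕ) : ℝ)
      = (r : ℝ) * ((r : ℝ) ^ 3 + 1) := by
    simp only [Nat.add_sub_cancel]
    have h2 : r + 1 - 2 = r - 1 := by omega
    rw [h2]
    push_cast [Nat.cast_sub (Nat.succ_le_of_lt hr)]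
    ring
  rw [this, Fintype.card_fin]
  congr 1
  field_simp

lemma tau_bip (s t r : ℕ) (hr : 0 < r) (ht : 1 ≤ t) :
    tau (completeBipartiteGraph (Fin s) (Fin t)).Adj (s * t) r ≤
      Real.exp ((s : ℝ) ^ 3 * t * 2 ^ (s * t)) := by
  have hr0 : (0 : ℝ) < r := by exact_mod_cast hr
  have hr1 : (1 : ℝ) ≤ r := by exact_mod_cast hr
  have hb := col_bip_le s t (r + 1) (Nat.succ_pos r) ht
  unfold tau
  have hq : (1 - 1 / ((r + 1 : ℕ) : ℝ)) = (r : ℝ) / ((r : ℝ) + 1) := by
    push_cast
    field_simp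
    ring
  rw [hq] at hb
  push_cast at hb
  set q : ℝ := (r : ℝ) / ((r : ℝ) + 1) with hqdef
  have hq0 : 0 < q := by positivity
  have hqh : 1 / 2 ≤ q := by
    rw [hqdef, div_le_div_iff₀ (by norm_num) (by positivity)]
    linarith
  have hcard : Fintype.card (Fin s ⊕ Fin t) = s + t := by simp
  rw [hcard]
  set C : ℝ := (s : ℝ) ^ 3 * t * 2 ^ (s * t) with hC
  have hC0 : 0 ≤ C := by positivity
  have h1 : (col (completeBipartiteGraph (Fin s) (Fin t)).Adj (r + 1) : ℝ) /
      (((r : ℝ) + 1) ^ (s + t) * q ^ (s * t)) ≤ 1 + C / ((r ^ 2 : ℕ) : ℝ) := by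
    rw [← div_div, div_le_iff₀ (by positivity)]
    refine le_trans hb ?_
    rw [add_mul, one_mul]
    gcongr
    rw [hC]
    push_cast
    have h2 : 1 ≤ 2 ^ (s * t) * q ^ (s * t) := by
      rw [← mul_pow]
      apply one_le_pow₀
      linarith
    have h3 : (s : ℝ) ^ 3 * t / ((r : ℝ) + 1) ^ 2 ≤ (s : ℝ) ^ 3 * t / (r : ℝ) ^ 2 := by
      gcongr
      linarith
    refine le_trans h3 ?_
    have h4 : (s : ℝ) ^ 3 * t * 2 ^ (s * t) / (r : ℝ) ^ 2 * q ^ (s * t) =
        (s : ℝ) ^ 3 * t / (r : ℝ) ^ 2 * (2 ^ (s * t) * q ^ (s * t)) := by ring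
    rw [h4]
    exact le_mul_of_one_le_right (by positivity) h2
  have hN : (0 : ℝ) < ((r ^ 2 : ℕ) : ℝ) := by
    push_cast
    positivity
  calc _ ≤ (1 + C / ((r ^ 2 : ℕ) : ℝ)) ^ (r ^ 2) := by
        apply pow_le_pow_left₀ _ h1
        positivity
    _ ≤ (Real.exp (C / ((r ^ 2 : ℕ) : ℝ))) ^ (r ^ 2) := by
        apply pow_le_pow_left₀ (by positivity)
        rw [add_comm]
        exact Real.add_one_le_exp _
    _ = Real.exp C := by
        rw [← Real.exp_nat_mul]
        congr 1
        field_simp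

lemma tendsto_three : Tendsto (fun r : ℕ => tau (SimpleGraph.cycleGraph 3).Adj 3 r) atTop
    (𝓝 (Real.exp (-1))) := by
  have h := Real.tendsto_one_add_div_pow_exp (-1)
  have h2 : Tendsto (fun r : ℕ => r ^ 2) atTop atTop := tendsto_pow_atTop (by norm_num)
  refine (h.comp h2).congr' ?_
  filter_upwards [eventually_gt_atTop 0] with r hr
  rw [tau_three r hr]
  rfl

lemma tendsto_four : Tendsto (fun r : ℕ => tau (SimpleGraph.cycleGraph 4).Adj 4 r) atTop
    (𝓝 1) := by
  have h0 : Tendsto (fun r : ℕ => Real.exp ((1 : ℝ) / (r : ℝ))) atTop (𝓝 1) := by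
    have h := (Real.continuous_exp.tendsto 0).comp (tendsto_const_div_atTop_nhds_zero_nat (1 : ℝ))
    rw [Real.exp_zero] at h
    exact h
  refine tendsto_of_tendsto_of_tendsto_of_le_of_le' tendsto_const_nhds h0 ?_ ?_
  · filter_upwards [eventually_gt_atTop 0] with r hr
    rw [tau_four r hr]
    apply one_le_pow₀
    have : (0 : ℝ) ≤ 1 / (r : ℝ) ^ 3 := by positivity
    linarith
  · filter_upwards [eventually_gt_atTop 0] with r hr
    have hr0 : (0 : ℝ) < r := by exact_mod_cast hr
    rw [tau_four r hr]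
    calc (1 + 1 / (r : ℝ) ^ 3) ^ (r ^ 2) ≤ (Real.exp (1 / (r : ℝ) ^ 3)) ^ (r ^ 2) := by
          apply pow_le_pow_left₀ (by positivity)
          rw [add_comm]
          exact Real.add_one_le_exp _
      _ = Real.exp (1 / (r : ℝ)) := by
          rw [← Real.exp_nat_mul]
          congr 1
          push_cast
          field_simp

lemma tendsto_two : Tendsto (fun r : ℕ => tau (⊤ : SimpleGraph (Fin 2)).Adj 1 r) atTop
    (𝓝 1) := by
  refine tendsto_const_nhds.congr' ?_
  filter_upwards [eventually_gt_atTop 0] with r hr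
  rw [tau_two r hr]

lemma diag_limit {S : ℕ → ℕ → ℝ} {τ : ℕ → ℝ} {L : ℝ} {φ : ℕ → ℕ}
    (hφ : Tendsto φ atTop atTop) (hτ : Tendsto τ atTop (𝓝 L))
    (h : ∀ᶠ n in atTop, |S (φ n) n - τ (φ n)| ≤ 1 / ((φ n : ℝ) + 1)) :
    Tendsto (fun n => S (φ n) n) atTop (𝓝 L) := by
  have h1 : Tendsto (fun n => 1 / ((φ n : ℝ) + 1)) atTop (𝓝 0) :=
    tendsto_one_div_add_atTop_nhds_zero_nat.comp hφ
  have h2 : Tendsto (fun n => S (φ n) n - τ (φ n)) atTop (𝓝 0) := by
    apply squeeze_zero_norm' _ h1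
    filter_upwards [h] with n hn
    rw [Real.norm_eq_abs]
    exact hn
  have h3 := h2.add (hτ.comp hφ)
  simp only [zero_add] at h3
  refine h3.congr ?_
  intro n
  simp [Function.comp]

/-- The negation of the preceding statement: There are s≥2, a>0 such that whenever p(n)/((log n)^a n^(-1/s))→∞ and n-vertex graphs have normalized labelled K2 and C4 counts tending to 1 and bounded normalized K_{s,t} counts for each t, the normalized triangle count tends to 1. -/
theorem negation :
    ¬ (∃ s : ℕ, 2 ≤ s ∧ ∃ a : ℝ, 0 < a ∧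
      ∀ p : ℕ → ℝ, (∀ n, 0 < p n ∧ p n ≤ 1) →
        Tendsto (fun n : ℕ => p n / ((Real.log n) ^ a * (n : ℝ) ^ (-(1 / (s : ℝ))))) atTop atTop →
        ∀ G : ∀ n : ℕ, SimpleGraph (Fin n),
          Tendsto (fun n : ℕ =>
            (Set.ncard {f : Fin 2 → Fin n | Function.Injective f ∧
                ∀ i j, (⊤ : SimpleGraph (Fin 2)).Adj i j → (G n).Adj (f i) (f j)} : ℝ) /
              ((n.descFactorial 2 : ℝ) * p n ^ 1)) atTop (𝓝 1) →
          Tendsto (fun n : ℕ =>
            (Set.ncard {f : Fin 4 → Fin n | Function.Injective f ∧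
                ∀ i j, (SimpleGraph.cycleGraph 4).Adj i j → (G n).Adj (f i) (f j)} : ℝ) /
              ((n.descFactorial 4 : ℝ) * p n ^ 4)) atTop (𝓝 1) →
          (∀ t : ℕ, 1 ≤ t → ∃ C : ℝ, ∀ n : ℕ,
            (Set.ncard {f : Fin s ⊕ Fin t → Fin n | Function.Injective f ∧
                ∀ i j, (completeBipartiteGraph (Fin s) (Fin t)).Adj i j → (G n).Adj (f i) (f j)} : ℝ) /
              ((n.descFactorial (s + t) : ℝ) * p n ^ (s * t)) ≤ C) →
          Tendsto (fun n : ℕ =>
            (Set.ncard {f : Fin 3 → Fin n | Function.Injective f ∧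
                ∀ i j, (SimpleGraph.cycleGraph 3).Adj i j → (G n).Adj (f i) (f j)} : ℝ) /
              ((n.descFactorial 3 : ℝ) * p n ^ 3)) atTop (𝓝 1)) := by
  rintro ⟨s, hs, a, ha, H⟩
  have hsym2 : ∀ u v, (⊤ : SimpleGraph (Fin 2)).Adj u v → u ≠ v := fun u v h => h.ne
  have hsym3 : ∀ u v, (SimpleGraph.cycleGraph 3).Adj u v → u ≠ v := fun u v h => h.ne
  have hsym4 : ∀ u v, (SimpleGraph.cycleGraph 4).Adj u v → u ≠ v := fun u v h => h.ne
  have hsymb : ∀ t, ∀ u v, (completeBipartiteGraph (Fin s) (Fin t)).Adj u v → u ≠ v :=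
    fun t u v h => h.ne
  let B : ∀ r n : ℕ, SimpleGraph (Fin n) := fun r n => blow (r + 1) (r ^ 2) (Nat.succ_pos r) n
  let w : ℕ → ℝ := fun n => (Real.log n) ^ a * (n : ℝ) ^ (-(1 / (s : ℝ)))
  have hs0 : (0 : ℝ) < s := by
    have : 0 < s := by omega
    exact_mod_cast this
  have hw : Tendsto w atTop (𝓝 0) := by
    have h1 : (fun x : ℝ => Real.log x ^ a) =o[atTop] fun x : ℝ => x ^ (1 / (s : ℝ)) :=
      isLittleO_log_rpow_rpow_atTop a (by positivity)
    have h2 := h1.tendsto_div_nhds_zero.comp (tendsto_natCast_atTop_atTop (R := ℝ))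
    refine h2.congr' ?_
    filter_upwards [eventually_gt_atTop 0] with n hn
    simp only [Function.comp, w]
    rw [Real.rpow_neg (by positivity), div_eq_mul_inv]
  have hwpos : ∀ᶠ n in atTop, 0 < w n := by
    filter_upwards [eventually_ge_atTop 3] with n hn
    have hn' : (3 : ℝ) ≤ n := by exact_mod_cast hn
    have h1 : 0 < Real.log n := Real.log_pos (by linarith)
    simp only [w]
    positivity
  let P : ℕ → ℕ → Prop := fun r n =>
    |sp (⊤ : SimpleGraph (Fin 2)).Adj 1 (dens r) (B r n) -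
      tau (⊤ : SimpleGraph (Fin 2)).Adj 1 r| ≤ 1 / ((r : ℝ) + 1) ∧
    |sp (SimpleGraph.cycleGraph 4).Adj 4 (dens r) (B r n) -
      tau (SimpleGraph.cycleGraph 4).Adj 4 r| ≤ 1 / ((r : ℝ) + 1) ∧
    |sp (SimpleGraph.cycleGraph 3).Adj 3 (dens r) (B r n) -
      tau (SimpleGraph.cycleGraph 3).Adj 3 r| ≤ 1 / ((r : ℝ) + 1) ∧
    (∀ t ∈ Finset.range (r + 1),
      sp (completeBipartiteGraph (Fin s) (Fin t)).Adj (s * t) (dens r) (B r n) ≤
        tau (completeBipartiteGraph (Fin s) (Fin t)).Adj (s * t) r + 1) ∧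
    (r : ℝ) ≤ dens r / w n
  have hP : ∀ r, ∀ᶠ n in atTop, P r n := by
    intro r
    have hpos : (0 : ℝ) < 1 / ((r : ℝ) + 1) := by positivity
    have e2 : ∀ᶠ n in atTop, |sp (⊤ : SimpleGraph (Fin 2)).Adj 1 (dens r) (B r n) -
        tau (⊤ : SimpleGraph (Fin 2)).Adj 1 r| ≤ 1 / ((r : ℝ) + 1) := by
      filter_upwards [Metric.tendsto_nhds.1 (sp_tendsto _ hsym2 1 r) _ hpos] with n hn
      exact le_of_lt hn
    have e4 : ∀ᶠ n in atTop, |sp (SimpleGraph.cycleGraph 4).Adj 4 (dens r) (B r n) -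
        tau (SimpleGraph.cycleGraph 4).Adj 4 r| ≤ 1 / ((r : ℝ) + 1) := by
      filter_upwards [Metric.tendsto_nhds.1 (sp_tendsto _ hsym4 4 r) _ hpos] with n hn
      exact le_of_lt hn
    have e3 : ∀ᶠ n in atTop, |sp (SimpleGraph.cycleGraph 3).Adj 3 (dens r) (B r n) -
        tau (SimpleGraph.cycleGraph 3).Adj 3 r| ≤ 1 / ((r : ℝ) + 1) := by
      filter_upwards [Metric.tendsto_nhds.1 (sp_tendsto _ hsym3 3 r) _ hpos] with n hn
      exact le_of_lt hn
    have eb : ∀ᶠ n in atTop, ∀ t ∈ Finset.range (r + 1),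
        sp (completeBipartiteGraph (Fin s) (Fin t)).Adj (s * t) (dens r) (B r n) ≤
          tau (completeBipartiteGraph (Fin s) (Fin t)).Adj (s * t) r + 1 := by
      rw [eventually_all_finset]
      intro t _
      filter_upwards [Metric.tendsto_nhds.1 (sp_tendsto _ (hsymb t) (s * t) r) 1 one_pos] with n hn
      have h1 := (abs_lt.1 hn).2
      linarith
    have ew : ∀ᶠ n in atTop, (r : ℝ) ≤ dens r / w n := by
      have hpos2 : (0 : ℝ) < dens r / ((r : ℝ) + 1) := div_pos (dens_pos r) (by positivity)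
      filter_upwards [hw.eventually (gt_mem_nhds hpos2), hwpos] with n h1 h2
      rw [le_div_iff₀ h2]
      rw [lt_div_iff₀ (by positivity)] at h1
      nlinarith
    filter_upwards [e2, e4, e3, eb, ew] with n h2 h4 h3 hb hw'
    exact ⟨h2, h4, h3, hb, hw'⟩
  obtain ⟨φ, hφ, hPφ⟩ := diag hP
  have hp : ∀ n, 0 < dens (φ n) ∧ dens (φ n) ≤ 1 := fun n => ⟨dens_pos _, dens_le _⟩
  have hφR : Tendsto (fun n => (φ n : ℝ)) atTop atTop := tendsto_natCast_atTop_atTop.comp hφ
  have hT := H (fun n => dens (φ n)) hp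
    (tendsto_atTop_mono' _ (by
      filter_upwards [hPφ] with n hn
      exact hn.2.2.2.2) hφR)
    (fun n => B (φ n) n)
    (by
      have h := diag_limit (S := fun r n => sp (⊤ : SimpleGraph (Fin 2)).Adj 1 (dens r) (B r n))
        hφ tendsto_two (by filter_upwards [hPφ] with n hn; exact hn.1)
      simpa only [sp, inj, Fintype.card_fin] using h)
    (by
      have h := diag_limit (S := fun r n => sp (SimpleGraph.cycleGraph 4).Adj 4 (dens r) (B r n))
        hφ tendsto_four (by filter_upwards [hPφ] with n hn; exact hn.2.1)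
      simpa only [sp, inj, Fintype.card_fin] using h)
    (by
      intro t ht
      have hev : ∀ᶠ n in atTop,
          sp (completeBipartiteGraph (Fin s) (Fin t)).Adj (s * t) (dens (φ n)) (B (φ n) n) ≤
          Real.exp ((s : ℝ) ^ 3 * t * 2 ^ (s * t)) + 1 := by
        filter_upwards [hPφ, hφ.eventually_ge_atTop (max t 1)] with n hn hn2
        have h1 := hn.2.2.2.1 t (Finset.mem_range.2 (by
          have := le_trans (le_max_left t 1) hn2
          omega))
        have h2 := tau_bip s t (φ n) (lt_of_lt_of_le (by omega) (le_trans (le_max_right t 1) hn2)) ht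
        linarith
      have hbd : BddAbove (Set.range fun n : ℕ =>
          sp (completeBipartiteGraph (Fin s) (Fin t)).Adj (s * t) (dens (φ n)) (B (φ n) n)) :=
        Filter.IsBoundedUnder.bddAbove_range ⟨_, hev⟩
      obtain ⟨C, hC⟩ := hbd
      refine ⟨C, fun n => ?_⟩
      have h := hC ⟨n, rfl⟩
      have hcard : Fintype.card (Fin s ⊕ Fin t) = s + t := by simp
      simpa only [sp, inj, hcard] using h)
  have hT2 := diag_limit (S := fun r n => sp (SimpleGraph.cycleGraph 3).Adj 3 (dens r) (B r n))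
        hφ tendsto_three (by filter_upwards [hPφ] with n hn; exact hn.2.2.1)
  have hT3 : Tendsto (fun n => sp (SimpleGraph.cycleGraph 3).Adj 3 (dens (φ n)) (B (φ n) n)) atTop
      (𝓝 1) := by
    simpa only [sp, inj, Fintype.card_fin] using hT
  have heq := tendsto_nhds_unique hT2 hT3
  have : Real.exp (-1) < 1 := by
    rw [Real.exp_lt_one_iff]
    norm_num
  linarith

end Pool.Agent.Helper36.E10300
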